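import Pool.Agent.DiffProp.Main

open MeasureTheory

namespace Pool.Agent.Results.MP_840fa9_an.DeltaProperty

/-- The function `g(t) = exp(i t^2)`. -/
noncomputable def g (t : ℝ) : ℂ := Complex.exp (Complex.I * (t : ℂ) ^ 2)

variable {X : Type*} [NormedAddCommGroup X] [NormedSpace ℂ X]

/-- `L^1_loc(J,X)`: Bochner integrable on every compact subinterval of `J`. Functions on `J` are
represented by functions on `ℝ` of which only the values on `J` are used. -/
def LocIntegrable (J : Set ℝ) (f : ℝ → X) : Prop :=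
  ∀ a b : ℝ, Set.Icc a b ⊆ J → IntegrableOn f (Set.Icc a b) volume

/-- The set `UC(J,X) + g UC(J,X)`. -/
def ucSum (X : Type*) [NormedAddCommGroup X] [NormedSpace ℂ X] (J : Set ℝ) : Set (ℝ → X) :=
  {F | ∃ u v : ℝ → X, UniformContinuousOn u J ∧ UniformContinuousOn v J ∧
    ∀ t ∈ J, F t = u t + g t • v t}

/-- The difference property `(Δ)` for a set `A` of functions on `J`: whenever `f` is in
`L^1_loc(J,X)` and all differences `f(t+a) - f(t)`, `a > 0`, belong to `A`, then
`f(t) - (1/h) ∫_t^{t+h} f` belongs to `A` for every `h > 0`. -/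
def SatisfiesDelta (J : Set ℝ) (A : Set (ℝ → X)) : Prop :=
  ∀ f : ℝ → X, LocIntegrable J f →
    (∀ a : ℝ, 0 < a → (fun t => f (t + a) - f t) ∈ A) →
    ∀ h : ℝ, 0 < h → (fun t => f t - h⁻¹ • ∫ s in t..(t + h), f s) ∈ A

/-- For every interval `J` of the form `[α,∞)`, `(α,∞)` or `ℝ` and every complex Banach space `X`
the set `UC(J,X) + g UC(J,X)` has the difference property `(Δ)`. -/
theorem result (X : Type*) [NormedAddCommGroup X] [NormedSpace ℂ X] [CompleteSpace X]
    (J : Set ℝ) (hJ : (∃ α : ℝ, J = Set.Ici α) ∨ (∃ α : ℝ, J = Set.Ioi α) ∨ J = Set.univ) :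
    SatisfiesDelta J (ucSum X J) := by
  have hup : IsUpperSet J := by
    rcases hJ with ⟨α, rfl⟩ | ⟨α, rfl⟩ | rfl
    · exact isUpperSet_Ici α
    · exact isUpperSet_Ioi α
    · exact isUpperSet_univ
  intro f hf hA h hh
  exact Pool.Agent.DiffProp.main hup f hf hA h hh

end Pool.Agent.Results.MP_840fa9_an.DeltaProperty
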